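import Mathlib

/-!
A maximal digraph without directed cycles of length at most three, on 11 vertices, with minimum
out-degree 3 (and 3 * 15 = 45 > 44 = 4 * 11), without homogeneous sets, which is not isomorphic to
any circular interval digraph.
-/

namespace Pool.Agent.Results.MP_ba12ad_co.ThomasseEleven

/-- The digraph with arc relation `A` (an arc `u → v` is `A u v`) has no directed cycle of length
at most three: no loop, no digon and no directed triangle. -/
def ShortCycleFree {V : Type} (A : V → V → Prop) : Prop :=
  (∀ u, ¬ A u u) ∧ (∀ u v, A u v → ¬ A v u) ∧ (∀ u v w, A u v → A v w → ¬ A w u)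

/-- The digraph obtained from `A` by adding the arc `u → v`. -/
def addArc {V : Type} (A : V → V → Prop) (u v : V) : V → V → Prop :=
  fun x y => A x y ∨ (x = u ∧ y = v)

/-- `A` has no directed cycle of length at most three, and adding any missing arc between two
distinct vertices creates one. -/
def MaximalShortCycleFree {V : Type} (A : V → V → Prop) : Prop :=
  ShortCycleFree A ∧ ∀ u v, u ≠ v → ¬ A u v → ¬ ShortCycleFree (addArc A u v)

/-- `X` is a homogeneous set of `A`: it has at least two vertices, is not the whole vertex set,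
and each vertex outside `X` sends an arc to every vertex of `X`, or receives an arc from every
vertex of `X`, or is adjacent to no vertex of `X`. -/
def IsHomogeneous {V : Type} (A : V → V → Prop) (X : Set V) : Prop :=
  (∃ x ∈ X, ∃ y ∈ X, x ≠ y) ∧ (∃ w, w ∉ X) ∧
    ∀ w, w ∉ X → (∀ x ∈ X, A w x) ∨ (∀ x ∈ X, A x w) ∨ (∀ x ∈ X, ¬ A w x ∧ ¬ A x w)

/-- The arc relation of the circular interval digraph: vertex set the integers modulo `3k+1`, arcs
`i → i + t` for `t = 1, …, k`. -/
def circArc (k : ℕ) (i j : ZMod (3 * k + 1)) : Prop :=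
  ∃ t : ℕ, 1 ≤ t ∧ t ≤ k ∧ j = i + (t : ZMod (3 * k + 1))

/-! ### The example -/

def nb : List (List ℕ) :=
  [[1,2,3],[5,8,10],[1,3,4],[1,4,5],[1,5,8,9,10],[7,8,9],[0,2,3],[0,2,6],[6,7,9],[0,6,7],
   [5,6,7,8,9]]

def arc (i j : Fin 11) : Bool := (nb.getD i.1 []).contains j.1

def dst (a b w : Fin 11) : Bool := (arc w a != arc w b) || (arc a w != arc b w)

def step (S : List (Fin 11)) : List (Fin 11) :=
  (List.finRange 11).filter fun w => S.contains w || S.any fun a => S.any fun b => dst a b w

theorem step_mem (X : Set (Fin 11)) (hX : IsHomogeneous (fun i j => arc i j = true) X)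
    (S : List (Fin 11)) (hS : ∀ s ∈ S, s ∈ X) : ∀ w ∈ step S, w ∈ X := by
  intro w hw
  simp only [step, List.mem_filter, List.mem_finRange, true_and, Bool.or_eq_true,
    List.contains_iff_mem, List.any_eq_true] at hw
  rcases hw with hw | ⟨a, ha, b, hb, hd⟩
  · exact hS w hw
  · by_contra hwX
    have haX := hS a ha
    have hbX := hS b hb
    have hfree : ∀ u v : Fin 11, arc u v = true → ¬ arc v u = true := by decide
    rcases hX.2.2 w hwX with h | h | h
    · have h1 := h a haX
      have h2 := h b hbX
      have h3 := hfree _ _ h1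
      have h4 := hfree _ _ h2
      simp only [dst, h1, h2, h3, h4] at hd
      simp at hd
    · have h1 := h a haX
      have h2 := h b hbX
      have h3 := hfree _ _ h1
      have h4 := hfree _ _ h2
      simp only [dst, h1, h2, h3, h4] at hd
      simp at hd
    · have h1 : arc w a = false := by simpa using (h a haX).1
      have h1' : arc a w = false := by simpa using (h a haX).2
      have h2 : arc w b = false := by simpa using (h b hbX).1
      have h2' : arc b w = false := by simpa using (h b hbX).2
      simp only [dst, h1, h1', h2, h2'] at hd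
      simp at hd

theorem closed : ∀ a b : Fin 11, a ≠ b → ∀ w : Fin 11,
    w ∈ step (step (step (step (step (step (step [a, b])))))) := by
  set_option maxRecDepth 100000 in
  decide +kernel

theorem result :
    ∃ (n : ℕ) (A : Fin n → Fin n → Prop),
      MaximalShortCycleFree A ∧
      (¬ ∃ X : Set (Fin n), IsHomogeneous A X) ∧
      (∀ v : Fin n, 4 * n < 15 * {w : Fin n | A v w}.ncard) ∧
      ∀ k : ℕ, ¬ ∃ φ : Fin n ≃ ZMod (3 * k + 1), ∀ u v, A u v ↔ circArc k (φ u) (φ v) := by
  refine ⟨11, fun i j => arc i j = true, ⟨⟨by decide, by decide, by decide⟩, ?_⟩, ?_, ?_, ?_⟩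
  · have key : ∀ u v : Fin 11, u ≠ v → ¬ arc u v = true →
        (arc v u = true) ∨ ∃ w, arc v w = true ∧ arc w u = true := by decide
    intro u v huv hn hf
    rcases key u v huv hn with h | ⟨w, h1, h2⟩
    · exact hf.2.1 u v (Or.inr ⟨rfl, rfl⟩) (Or.inl h)
    · exact hf.2.2 u v w (Or.inr ⟨rfl, rfl⟩) (Or.inl h1) (Or.inl h2)
  · rintro ⟨X, hX⟩
    obtain ⟨⟨a, ha, b, hb, hab⟩, ⟨w, hw⟩, -⟩ := id hX
    refine hw ?_
    have h0 : ∀ s ∈ [a, b], s ∈ X := by
      intro s hs
      simp only [List.mem_cons, List.not_mem_nil, or_false] at hs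
      rcases hs with rfl | rfl
      · exact ha
      · exact hb
    exact step_mem X hX _ (step_mem X hX _ (step_mem X hX _ (step_mem X hX _ (step_mem X hX _
      (step_mem X hX _ (step_mem X hX _ h0)))))) w (closed a b hab w)
  · intro v
    have e : {w : Fin 11 | arc v w = true} = ((Finset.univ.filter fun w => arc v w = true :
        Finset (Fin 11)) : Set (Fin 11)) := by
      ext w; simp
    have key : ∀ v : Fin 11, 4 * 11 < 15 * (Finset.univ.filter fun w => arc v w = true).card := by
      decide
    show 4 * 11 < 15 * Set.ncard {w : Fin 11 | arc v w = true}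
    rw [e, Set.ncard_coe_finset]
    exact key v
  · rintro k ⟨φ, -⟩
    have h := Fintype.card_congr φ
    rw [Fintype.card_fin, ZMod.card] at h
    omega

end Pool.Agent.Results.MP_ba12ad_co.ThomasseEleven
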